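import Mathlib

/-!
# Linear nonabelian Poisson brackets on free associative algebras: complete classification

`A = ℂ⟨x_1, …, x_N⟩` is the free associative algebra and `T = A / [A, A]`.  For constants
`b_ij^k`, `b'_ij^k` put `Θ_ij = Σ_k (b_ij^k R_{x_k} + b'_ij^k L_{x_k})` and
`{f, g} = Σ_ij f_i Θ_ij (g_j)`, where `f_i = grad_{x_i} f`.

Main theorem (`result`).  The bracket is skew-symmetric and satisfies the Jacobi identity on `T` if
and only if there are a unital associative algebra with basis `1, e_1, …, e_N`, say
`e_i e_j = w_ij 1 + Σ_k m_ij^k e_k`, and a vector `v` such that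
`b_ij^k = m_ij^k + v_j δ_ik` and `b'_ij^k = - m_ji^k - v_j δ_ik`.

Outline of the proof.
* The kernel terms `u_i δ_jk + v_j δ_ik` do not change the bracket, because `Σ_i [f_i, x_i] = 0`.
* Skew-symmetry, tested on words of length at most two, forces
  `b_ij^k + b'_ji^k = v_j δ_ik - v_i δ_jk`.
* For `b' = opp b` the Jacobi expression equals minus the antisymmetrised contraction of the
  gradients with the associator of `b` (`jacobi_formula`).
* Testing on three marker words `x_i u`, `x_j v`, `x_l w` and reading off the coefficient of one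
  cyclic word (`relR`, checked by a small verified matching procedure) shows that the associator is
  `(a, b, c) = w(b, c) a - w(a, b) c`, and the pentagon identity of associators makes `w` invariant.
-/

noncomputable section

namespace Pool.Agent.NPB

/-! ## Definitions used in the statement -/

/-- The free associative algebra `ℂ⟨x_1, …, x_N⟩`. -/
abbrev Alg (N : ℕ) : Type := FreeAlgebra ℂ (Fin N)

variable {N : ℕ}

/-- The generator `x_k` of `A`. -/
def X (k : Fin N) : Alg N := FreeAlgebra.ι ℂ k

/-- The monomial `x_{w_1} x_{w_2} ⋯ x_{w_n}` attached to a word `w = [w_1, …, w_n]`. -/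
def word (w : List (Fin N)) : Alg N := (w.map X).prod

/-- The linear span `[A, A]` of all commutators. -/
def comm (N : ℕ) : Submodule ℂ (Alg N) :=
  Submodule.span ℂ {c | ∃ a b : Alg N, c = a * b - b * a}

/-- The quotient space `T = A / [A, A]`. -/
abbrev T (N : ℕ) : Type := Alg N ⧸ comm N

/-- The projection `A → T`. -/
def tr : Alg N →ₗ[ℂ] T N := (comm N).mkQ

/-- The gradient `grad_{x_k}` of a word: the sum, over the occurrences of `x_k` in the word, of the
word rotated cyclically so that this occurrence comes first, with that letter deleted. -/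
def gradWord (k : Fin N) (w : List (Fin N)) : Alg N :=
  ∑ m ∈ Finset.range w.length,
    if (w.rotate m).head? = some k then word (w.rotate m).tail else 0

/-- The gradient `grad_{x_k} : A → A`, extended linearly from words. -/
def gradA (k : Fin N) : Alg N →ₗ[ℂ] Alg N :=
  (FreeAlgebra.basisFreeMonoid ℂ (Fin N)).constr ℂ (fun w => gradWord k (FreeMonoid.toList w))

@[simp] lemma word_nil : word ([] : List (Fin N)) = 1 := rfl
lemma word_cons (a : Fin N) (w : List (Fin N)) : word (a :: w) = X a * word w := by
  simp [word]
lemma word_append (u v : List (Fin N)) : word (u ++ v) = word u * word v := by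
  simp [word]
lemma word_singleton (a : Fin N) : word [a] = X a := by simp [word]

lemma basis_apply (w : List (Fin N)) :
    FreeAlgebra.basisFreeMonoid ℂ (Fin N) (FreeMonoid.ofList w) = word w := by
  simp only [FreeAlgebra.basisFreeMonoid, Module.Basis.map_apply]
  simp [FreeAlgebra.equivMonoidAlgebraFreeMonoid]
  rfl

lemma gradA_word (k : Fin N) (w : List (Fin N)) : gradA k (word w) = gradWord k w := by
  rw [← basis_apply, gradA, Module.Basis.constr_basis]
  rfl

lemma tr_mul_comm (a b : Alg N) : tr (a * b) = tr (b * a) := by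
  rw [← sub_eq_zero, ← map_sub, tr, Submodule.mkQ_apply, Submodule.Quotient.mk_eq_zero]
  exact Submodule.subset_span ⟨a, b, rfl⟩

/-- Induction: a linear condition holding on words holds everywhere. -/
lemma alg_induction {p : Alg N → Prop} (hw : ∀ w, p (word w))
    (hadd : ∀ a b, p a → p b → p (a + b)) (hsmul : ∀ (c : ℂ) a, p a → p (c • a)) :
    ∀ a, p a := by
  intro a
  have h := (FreeAlgebra.basisFreeMonoid ℂ (Fin N)).mem_span a
  induction h using Submodule.span_induction with
  | mem x hx =>
      obtain ⟨w, rfl⟩ := hx
      have := hw (FreeMonoid.toList w)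
      rw [← basis_apply] at this
      exact this
  | zero => have := hsmul 0 _ (hw []); rwa [zero_smul] at this
  | add x y _ _ hx hy => exact hadd x y hx hy
  | smul c x _ hx => exact hsmul c x hx

lemma linearMap_ext_word {M : Type*} [AddCommMonoid M] [Module ℂ M] {F G : Alg N →ₗ[ℂ] M}
    (h : ∀ w, F (word w) = G (word w)) : F = G := by
  ext a
  induction a using alg_induction with
  | hw w => exact h w
  | hadd a b ha hb => rw [map_add, map_add, ha, hb]
  | hsmul c a ha => rw [map_smul, map_smul, ha]

/-! ### rotations -/

/-- sum over rotations -/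
lemma sum_rotate_cons {M : Type*} [AddCommGroup M] (F : List (Fin N) → M) (a : Fin N)
    (w : List (Fin N)) :
    ∑ m ∈ Finset.range (a :: w).length, F ((a :: w).rotate m)
      = ∑ m ∈ Finset.range (w ++ [a]).length, F ((w ++ [a]).rotate m) := by
  have h1 : (w ++ [a]).length = w.length + 1 := by simp
  rw [h1, List.length_cons, Finset.sum_range_succ', Finset.sum_range_succ]
  have h2 : (w ++ [a]).rotate w.length = (a :: w).rotate 0 := by
    rw [List.rotate_append_length_eq]; simp
  rw [h2]
  simp only [List.rotate_cons_succ]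

lemma sum_rotate_append {M : Type*} [AddCommGroup M] (F : List (Fin N) → M)
    (u v : List (Fin N)) :
    ∑ m ∈ Finset.range (u ++ v).length, F ((u ++ v).rotate m)
      = ∑ m ∈ Finset.range (v ++ u).length, F ((v ++ u).rotate m) := by
  induction u generalizing v with
  | nil => simp
  | cons a u ih =>
      rw [List.cons_append, sum_rotate_cons, List.append_assoc, ih (v ++ [a]),
        List.append_assoc, List.singleton_append]

lemma gradWord_append_comm (k : Fin N) (u v : List (Fin N)) :
    gradWord k (u ++ v) = gradWord k (v ++ u) :=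
  sum_rotate_append (fun w => if w.head? = some k then word w.tail else 0) u v

lemma gradA_mul_comm (k : Fin N) (a b : Alg N) : gradA k (a * b) = gradA k (b * a) := by
  induction a using alg_induction with
  | hw u =>
      induction b using alg_induction with
      | hw v => rw [← word_append, ← word_append, gradA_word, gradA_word, gradWord_append_comm]
      | hadd a b ha hb => rw [mul_add, add_mul, map_add, map_add, ha, hb]
      | hsmul c a ha => rw [mul_smul_comm, smul_mul_assoc, map_smul, map_smul, ha]
  | hadd a b ha hb => rw [mul_add, add_mul, map_add, map_add, ha, hb]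
  | hsmul c a ha => rw [mul_smul_comm, smul_mul_assoc, map_smul, map_smul, ha]

lemma comm_le_ker (k : Fin N) : comm N ≤ LinearMap.ker (gradA k) := by
  rw [comm, Submodule.span_le]
  rintro c ⟨a, b, rfl⟩
  rw [SetLike.mem_coe, LinearMap.mem_ker, map_sub, gradA_mul_comm, sub_self]

/-- The gradient `grad_{x_k} : T → A`; it is well defined as `grad_{x_k}` vanishes on `[A, A]`. -/
def grad (k : Fin N) : T N →ₗ[ℂ] Alg N := (comm N).liftQ (gradA k) (comm_le_ker k)

@[simp] lemma grad_tr (k : Fin N) (a : Alg N) : grad k (tr a) = gradA k a := by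
  simp [grad, tr]

/-- The operator `Θ_ij = Σ_k (b_ij^k R_{x_k} + b'_ij^k L_{x_k})` on `A`, where
`L_a (c) = a c` and `R_a (c) = c a`. -/
def Theta (b b' : Fin N → Fin N → Fin N → ℂ) (i j : Fin N) (c : Alg N) : Alg N :=
  ∑ k, (b i j k • (c * X k) + b' i j k • (X k * c))

/-- The bracket `{f, g} = Σ_ij f_i Θ_ij (g_j)` modulo `[A, A]`, for `f, g ∈ T`. -/
def bracket (b b' : Fin N → Fin N → Fin N → ℂ) (f g : T N) : T N :=
  tr (∑ i, ∑ j, grad i f * Theta b b' i j (grad j g))

/-- The bracket is a nonabelian Poisson bracket: it is skew-symmetric and satisfies the Jacobi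
identity, for all `f, g, h ∈ T`. -/
def IsNonabelianPoisson (b b' : Fin N → Fin N → Fin N → ℂ) : Prop :=
  (∀ f g : T N, bracket b b' f g + bracket b b' g f = 0) ∧
  (∀ f g h : T N, bracket b b' f (bracket b b' g h) + bracket b b' g (bracket b b' h f)
    + bracket b b' h (bracket b b' f g) = 0)

/-- The bilinear multiplication on `ℂ ⊕ ℂ^N` for which `1 = (1, 0)` is a two-sided unit and, for the
standard basis `e_1, …, e_N` of `ℂ^N`, `e_i e_j = w_ij 1 + Σ_k m_ij^k e_k`. -/
def hatMul (m : Fin N → Fin N → Fin N → ℂ) (w : Fin N → Fin N → ℂ)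
    (p q : ℂ × (Fin N → ℂ)) : ℂ × (Fin N → ℂ) :=
  (p.1 * q.1 + ∑ i, ∑ j, p.2 i * q.2 j * w i j,
    fun k => p.1 * q.2 k + q.1 * p.2 k + ∑ i, ∑ j, p.2 i * q.2 j * m i j k)

/-- `m, w` are the structure constants of a unital associative algebra with basis
`1, e_1, …, e_N`, where `e_i e_j = w_ij 1 + Σ_k m_ij^k e_k`. -/
def IsUnitalAssociative (m : Fin N → Fin N → Fin N → ℂ) (w : Fin N → Fin N → ℂ) : Prop :=
  ∀ p q r : ℂ × (Fin N → ℂ),
    hatMul m w (hatMul m w p q) r = hatMul m w p (hatMul m w q r)

end Pool.Agent.NPB
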