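import Pool.Agent.NPB.Defs

/-!
# Proof of the classification of linear nonabelian Poisson brackets

Outline of the proof.
* The kernel terms `u_i δ_jk + v_j δ_ik` do not change the bracket, because `Σ_i [f_i, x_i] = 0`.
* Skew-symmetry, tested on words of length at most two, forces
  `b_ij^k + b'_ji^k = v_j δ_ik - v_i δ_jk`.
* For `b' = opp b` the Jacobi expression equals minus the antisymmetrised contraction of the
  gradients with the associator of `b` (`jacobi_formula`).
* Testing on three marker words `x_i u`, `x_j v`, `x_l w` and reading off the coefficient of one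
  cyclic word (`relR`, checked by a small verified matching procedure) shows that the associator is
  `(a, b, c) = w(b, c) a - w(a, b) c`, and the pentagon identity of associators makes `w` invariant.
-/

noncomputable section

namespace Pool.Agent.NPB

variable {N : ℕ}

/-! Sanity checks for `hatMul`. -/

lemma hatMul_one_left (m : Fin N → Fin N → Fin N → ℂ) (w : Fin N → Fin N → ℂ)
    (p : ℂ × (Fin N → ℂ)) : hatMul m w (1, 0) p = p := by
  ext <;> simp [hatMul]

lemma hatMul_one_right (m : Fin N → Fin N → Fin N → ℂ) (w : Fin N → Fin N → ℂ)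
    (p : ℂ × (Fin N → ℂ)) : hatMul m w p (1, 0) = p := by
  ext <;> simp [hatMul]

lemma hatMul_basis (m : Fin N → Fin N → Fin N → ℂ) (w : Fin N → Fin N → ℂ) (i j : Fin N) :
    hatMul m w (0, Pi.single i 1) (0, Pi.single j 1) = (w i j, fun k => m i j k) := by
  ext <;> simp [hatMul, Pi.single_apply]

/-! ## Rotations, the Euler identity -/

/-- cuts of a word with accumulated left part -/
def cutsAux : List (Fin N) → List (Fin N) → List (Fin N × List (Fin N))
  | _, [] => []
  | u, a :: w => (a, w ++ u) :: cutsAux (u ++ [a]) w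

/-- sum over rotations versus sum over cuts -/
lemma sum_rotate_eq_cuts {M : Type*} [AddCommGroup M] (F : Fin N → List (Fin N) → M)
    (G : List (Fin N) → M) (hG : ∀ a w, G (a :: w) = F a w) (u w : List (Fin N)) :
    ∑ m ∈ Finset.range w.length, G ((w ++ u).rotate m)
      = ((cutsAux u w).map (fun c => F c.1 c.2)).sum := by
  induction w generalizing u with
  | nil => simp [cutsAux]
  | cons a w ih =>
      rw [List.length_cons, Finset.sum_range_succ', cutsAux, List.map_cons, List.sum_cons]
      simp only [List.cons_append, List.rotate_zero, hG, List.rotate_cons_succ]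
      rw [add_comm, List.append_assoc, ih (u ++ [a])]

/-- Euler identity `Σ [f_i, x_i] = 0` -/
lemma euler (e : Alg N) : ∑ i, (gradA i e * X i) = ∑ i, (X i * gradA i e) := by
  induction e using alg_induction with
  | hw w =>
      have key : ∀ (L : Fin N → List (Fin N) → Alg N) (G : List (Fin N) → Alg N)
          (_ : G [] = 0) (_ : ∀ a w, G (a :: w) = L a w),
          ∑ i, ∑ m ∈ Finset.range w.length,
            (if (w.rotate m).head? = some i then L i (w.rotate m).tail else 0)
            = ∑ m ∈ Finset.range w.length, G (w.rotate m) := by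
        intro L G h0 hG
        rw [Finset.sum_comm]
        refine Finset.sum_congr rfl fun m _ => ?_
        rcases h : w.rotate m with _ | ⟨a, v⟩
        · simp [h0]
        · simp [hG]
      simp only [gradA_word, gradWord, Finset.sum_mul, Finset.mul_sum, ite_mul, mul_ite, zero_mul,
        mul_zero]
      rw [key (fun i v => word v * X i) (fun l => if l = [] then 0 else word (l.rotate 1))
        (by simp) (by intro a w; simp [word_append, word_singleton]),
        key (fun i v => X i * word v) (fun l => if l = [] then 0 else word l)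
        (by simp) (by intro a w; simp [word_cons])]
      rcases eq_or_ne w [] with rfl | hw
      · simp
      · have h1 : ∀ m, w.rotate m ≠ [] := by
          intro m; simpa using hw
        simp only [h1, if_false, List.rotate_rotate]
        rw [← sub_eq_zero, ← Finset.sum_sub_distrib,
          Finset.sum_range_sub (fun m => word (w.rotate m))]
        simp
  | hadd a b ha hb => simp only [map_add, add_mul, mul_add, Finset.sum_add_distrib, ha, hb]
  | hsmul c a ha =>
      simp only [map_smul, smul_mul_assoc, mul_smul_comm, ← Finset.smul_sum, ha]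

/-- algebra map encoding the derivation `x_i ↦ Z_i` -/
def dlift (Z : Fin N → Alg N) : Alg N →ₐ[ℂ] TrivSqZeroExt (Alg N) (Alg N) :=
  FreeAlgebra.lift ℂ (fun i => TrivSqZeroExt.inl (X i) + TrivSqZeroExt.inr (Z i))

lemma dlift_fst (Z : Fin N → Alg N) (a : Alg N) : (dlift Z a).fst = a := by
  have h : (TrivSqZeroExt.fstHom ℂ (Alg N) (Alg N)).comp (dlift Z) = AlgHom.id ℂ _ := by
    ext i
    simp [dlift, X]
  have := DFunLike.congr_fun h a
  simpa using this

/-- the derivation `x_i ↦ Z_i` -/
def D (Z : Fin N → Alg N) : Alg N →ₗ[ℂ] Alg N where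
  toFun a := (dlift Z a).snd
  map_add' a b := by rw [map_add, TrivSqZeroExt.snd_add]
  map_smul' c a := by rw [map_smul, TrivSqZeroExt.snd_smul, RingHom.id_apply]

lemma D_X (Z : Fin N → Alg N) (i : Fin N) : D Z (X i) = Z i := by
  simp [D, dlift, X]

lemma D_mul (Z : Fin N → Alg N) (a b : Alg N) : D Z (a * b) = a * D Z b + D Z a * b := by
  change (dlift Z (a * b)).snd = _
  rw [map_mul, TrivSqZeroExt.snd_mul, dlift_fst, dlift_fst]
  simp [D]

lemma D_one (Z : Fin N → Alg N) : D Z 1 = 0 := by
  simp [D]

/-- `D` preserves commutators -/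
lemma D_comm (Z : Fin N → Alg N) {a b : Alg N} (h : tr a = tr b) : tr (D Z a) = tr (D Z b) := by
  rw [← sub_eq_zero, ← map_sub, tr, Submodule.mkQ_apply, Submodule.Quotient.mk_eq_zero] at h
  rw [← sub_eq_zero, ← map_sub, ← map_sub]
  generalize a - b = c at h
  rw [comm] at h
  induction h using Submodule.span_induction with
  | mem x hx =>
      obtain ⟨a, b, rfl⟩ := hx
      rw [map_sub, D_mul, D_mul, map_sub, map_add, map_add, tr_mul_comm a, tr_mul_comm (D Z a)]
      abel
  | zero => simp
  | add x y _ _ hx hy => rw [map_add, map_add, hx, hy, add_zero]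
  | smul c x _ hx => rw [map_smul, map_smul, hx, smul_zero]

lemma tr_D_word (Z : Fin N → Alg N) (u w : List (Fin N)) :
    tr (word u * D Z (word w)) = ((cutsAux u w).map (fun c => tr (word c.2 * Z c.1))).sum := by
  induction w generalizing u with
  | nil => simp [cutsAux, D_one]
  | cons a w ih =>
      rw [cutsAux, List.map_cons, List.sum_cons, ← ih (u ++ [a]), word_cons, D_mul, D_X, mul_add,
        map_add, add_comm, word_append, word_append, word_singleton]
      congr 1
      · rw [← mul_assoc, tr_mul_comm, ← mul_assoc]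
      · rw [mul_assoc]

/-- (F1) `tr (D_Z e) = Σ tr (e_i Z_i)` -/
lemma tr_D (Z : Fin N → Alg N) (e : Alg N) : tr (D Z e) = ∑ i, tr (gradA i e * Z i) := by
  induction e using alg_induction with
  | hw w =>
      have h := tr_D_word Z [] w
      rw [word_nil, one_mul] at h
      rw [h, ← sum_rotate_eq_cuts (fun a v => tr (word v * Z a))
        (fun l => match l with
          | [] => 0
          | a :: v => tr (word v * Z a)) (fun a v => rfl)]
      simp only [gradA_word, gradWord, Finset.sum_mul, map_sum]
      rw [Finset.sum_comm]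
      refine Finset.sum_congr rfl fun m _ => ?_
      rw [List.append_nil]
      rcases w.rotate m with _ | ⟨a, v⟩
      · simp
      · simp [ite_mul, apply_ite tr]
  | hadd a b ha hb => simp only [map_add, add_mul, Finset.sum_add_distrib, ha, hb]
  | hsmul c a ha => simp only [map_smul, smul_mul_assoc, ← Finset.smul_sum, ha]

/-- Inclusion of `A` into the free algebra with one extra generator `δ = x_{N+1}`. -/
def emb : Alg N →ₐ[ℂ] Alg (N + 1) := FreeAlgebra.lift ℂ (fun i => X i.castSucc)

lemma emb_word (w : List (Fin N)) : emb (word w) = word (w.map Fin.castSucc) := by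
  induction w with
  | nil => simp
  | cons a w ih =>
      rw [word_cons, map_mul, ih, List.map_cons, word_cons]
      simp [emb, X]

lemma gradA_emb (k : Fin N) (H : Alg N) : gradA k.castSucc (emb H) = emb (gradA k H) := by
  induction H using alg_induction with
  | hw w =>
      rw [emb_word, gradA_word, gradA_word, gradWord, gradWord, map_sum, List.length_map]
      refine Finset.sum_congr rfl fun m _ => ?_
      rw [← List.map_rotate]
      rcases w.rotate m with _ | ⟨a, v⟩
      · simp
      · simp only [List.map_cons, List.head?_cons, List.tail_cons, Option.some.injEq,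
          Fin.castSucc_inj]
        rw [apply_ite emb, map_zero, emb_word]
  | hadd a b ha hb => simp only [map_add, ha, hb]
  | hsmul c a ha => simp only [map_smul, ha]

/-- Sanity check: the defining property of the gradient.  In the free algebra with one extra
generator `δ`, the derivative of `H` in the direction `x_k ↦ x_k + ε δ` is `δ grad_{x_k} H` modulo
commutators. -/
lemma grad_spec (k : Fin N) (H : Alg N) :
    tr (D (Pi.single k.castSucc (X (Fin.last N))) (emb H))
      = tr (X (Fin.last N) * emb (gradA k H)) := by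
  rw [tr_D, Finset.sum_eq_single k.castSucc]
  · rw [Pi.single_eq_same, gradA_emb, tr_mul_comm]
  · intro i _ hi
    rw [Pi.single_eq_of_ne hi, mul_zero, map_zero]
  · simp

lemma D_bracket (Y Z : Fin N → Alg N) (a : Alg N) :
    D Y (D Z a) - D Z (D Y a) = D (fun i => D Y (Z i) - D Z (Y i)) a := by
  induction a using FreeAlgebra.induction with
  | grade0 r =>
      have : ∀ W : Fin N → Alg N, D W (algebraMap ℂ (Alg N) r) = 0 := by
        intro W
        rw [Algebra.algebraMap_eq_smul_one, map_smul, D_one, smul_zero]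
      simp [this]
  | grade1 x => 
      change D Y (D Z (X x)) - D Z (D Y (X x)) = D _ (X x)
      rw [D_X, D_X, D_X]
  | mul a b ha hb =>
      rw [D_mul, D_mul, D_mul _ a b, map_add, map_add, D_mul, D_mul, D_mul, D_mul, ← ha, ← hb]
      noncomm_ring
  | add a b ha hb => simp only [map_add, ← ha, ← hb]; abel

/-- Hessian -/
def Hess (g : Alg N) (Y Z : Fin N → Alg N) : T N := ∑ i, tr (D Y (gradA i g) * Z i)

lemma Hess_eq (g : Alg N) (Y Z : Fin N → Alg N) :
    Hess g Y Z = tr (D Y (D Z g)) - ∑ i, tr (gradA i g * D Y (Z i)) := by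
  have h : tr (D Z g) = tr (∑ i, gradA i g * Z i) := by rw [tr_D, map_sum]
  rw [D_comm Y h, Hess, map_sum, map_sum]
  simp only [D_mul, map_add, Finset.sum_add_distrib]
  abel

/-- (F3) -/
lemma Hess_symm (g : Alg N) (Y Z : Fin N → Alg N) : Hess g Y Z = Hess g Z Y := by
  rw [Hess_eq, Hess_eq, sub_eq_sub_iff_sub_eq_sub, ← map_sub, D_bracket, tr_D,
    ← Finset.sum_sub_distrib]
  refine Finset.sum_congr rfl fun i _ => ?_
  rw [mul_sub, map_sub]


/-- representative of the bracket -/
def B (b b' : Fin N → Fin N → Fin N → ℂ) (f g : Alg N) : Alg N :=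
  ∑ i, ∑ j, gradA i f * Theta b b' i j (gradA j g)

lemma bracket_tr (b b' : Fin N → Fin N → Fin N → ℂ) (f g : Alg N) :
    bracket b b' (tr f) (tr g) = tr (B b b' f g) := by
  simp [bracket, B]

lemma tr_surj (f : T N) : ∃ a : Alg N, tr a = f := (comm N).mkQ_surjective f

/-- the trilinear expressions `Σ c_{ijl}^p tr (f_i g_j h_l x_p)` -/
def U (c : Fin N → Fin N → Fin N → Fin N → ℂ) (f g h : Alg N) : T N :=
  ∑ i, ∑ j, ∑ l, ∑ p, c i j l p • tr (gradA i f * gradA j g * gradA l h * X p)

/-- the bilinear expressions `Σ c_{ij}^k tr (f_i g_j x_k)` -/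
def V (c : Fin N → Fin N → Fin N → ℂ) (f g : Alg N) : T N :=
  ∑ i, ∑ j, ∑ k, c i j k • tr (gradA i f * gradA j g * X k)

/-- formula for the bracket -/
lemma tr_B (b b' : Fin N → Fin N → Fin N → ℂ) (f g : Alg N) :
    tr (B b b' f g) = V b f g + V (fun i j k => b' j i k) g f := by
  have h2 : V (fun i j k => b' j i k) g f
      = ∑ i, ∑ j, ∑ k, b' i j k • tr (gradA i f * (X k * gradA j g)) := by
    rw [V, Finset.sum_comm]
    refine Finset.sum_congr rfl fun i _ => Finset.sum_congr rfl fun j _ =>
      Finset.sum_congr rfl fun k _ => ?_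
    rw [mul_assoc, tr_mul_comm, mul_assoc]
  rw [h2, B, V, map_sum, ← Finset.sum_add_distrib]
  refine Finset.sum_congr rfl fun i _ => ?_
  rw [map_sum, ← Finset.sum_add_distrib]
  refine Finset.sum_congr rfl fun j _ => ?_
  rw [Theta, Finset.mul_sum, map_sum, ← Finset.sum_add_distrib]
  refine Finset.sum_congr rfl fun k _ => ?_
  rw [mul_add, map_add, mul_smul_comm, mul_smul_comm, map_smul, map_smul, mul_assoc]

/-- Hamiltonian derivation -/
def XH (b b' : Fin N → Fin N → Fin N → ℂ) (g : Alg N) (i : Fin N) : Alg N :=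
  ∑ j, Theta b b' i j (gradA j g)

lemma tr_B_eq_D (b b' : Fin N → Fin N → Fin N → ℂ) (e f : Alg N) :
    tr (B b b' e f) = tr (D (XH b b' f) e) := by
  rw [tr_D, B, map_sum]
  refine Finset.sum_congr rfl fun i _ => ?_
  rw [XH, Finset.mul_sum]

/-- operator skew-symmetric: the companion constants -/
def opp (b : Fin N → Fin N → Fin N → ℂ) : Fin N → Fin N → Fin N → ℂ := fun i j k => - b j i k

lemma tr_B_opp (b : Fin N → Fin N → Fin N → ℂ) (f g : Alg N) :
    tr (B b (opp b) f g) = V b f g - V b g f := by
  rw [tr_B, sub_eq_add_neg]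
  congr 1
  simp only [V, opp, neg_smul, Finset.sum_neg_distrib]

lemma tr_B_skew (b : Fin N → Fin N → Fin N → ℂ) (f g : Alg N) :
    tr (B b (opp b) f g) = - tr (B b (opp b) g f) := by
  rw [tr_B_opp, tr_B_opp, neg_sub]

/-- bilinear version with arbitrary families in place of gradients -/
def V' (c : Fin N → Fin N → Fin N → ℂ) (f g z : Fin N → Alg N) : T N :=
  ∑ i, ∑ j, ∑ k, c i j k • tr (f i * g j * z k)

/-- The remainder term. -/
def R (b : Fin N → Fin N → Fin N → ℂ) (g h : Alg N) (Y : Fin N → Alg N) : T N :=
  V' b (fun i => gradA i g) (fun j => gradA j h) Y - V' b (fun i => gradA i h) (fun j => gradA j g) Y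

lemma V'_eq (c : Fin N → Fin N → Fin N → ℂ) (f g : Alg N) : 
    V c f g = V' c (fun i => gradA i f) (fun j => gradA j g) X := rfl

lemma tr_B_opp' (b : Fin N → Fin N → Fin N → ℂ) (f g : Alg N) :
    tr (B b (opp b) f g) = tr (∑ i, ∑ j, ∑ k, b i j k •
      (gradA i f * gradA j g * X k - gradA i g * gradA j f * X k)) := by
  rw [tr_B_opp, V, V]
  simp only [map_sum, map_smul, map_sub, smul_sub, Finset.sum_sub_distrib]

lemma XH_opp (b : Fin N → Fin N → Fin N → ℂ) (g : Alg N) (i : Fin N) :
    XH b (opp b) g i = ∑ j, ∑ k, (b i j k • (gradA j g * X k) - b j i k • (X k * gradA j g)) := by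
  simp only [XH, Theta, opp, neg_smul, sub_eq_add_neg]

/-- `Σ_i tr (a_i (X_g)_i)` in terms of `V'` -/
lemma sum_tr_XH (b : Fin N → Fin N → Fin N → ℂ) (a : Fin N → Alg N) (g : Alg N) :
    ∑ i, tr (a i * XH b (opp b) g i)
      = V' b a (fun j => gradA j g) X - V' b (fun j => gradA j g) a X := by
  simp only [XH_opp, V', Finset.mul_sum, map_sum, mul_sub, map_sub, mul_smul_comm, map_smul,
    Finset.sum_sub_distrib]
  congr 1
  · simp only [mul_assoc]
  · rw [Finset.sum_comm]
    refine Finset.sum_congr rfl fun i _ => Finset.sum_congr rfl fun j _ =>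
      Finset.sum_congr rfl fun k _ => ?_
    rw [← mul_assoc, tr_mul_comm, mul_assoc]

/-- main computation -/
lemma tr_D_B (b : Fin N → Fin N → Fin N → ℂ) (g h : Alg N) (Y : Fin N → Alg N) :
    tr (D Y (B b (opp b) g h)) =
      Hess g Y (XH b (opp b) h) - Hess h Y (XH b (opp b) g) + R b g h Y := by
  rw [D_comm Y (tr_B_opp' b g h), Hess, Hess, sum_tr_XH, sum_tr_XH, R]
  simp only [V', map_sum, map_smul, map_sub, D_mul, D_X, map_add, add_mul, smul_sub,
    smul_add, Finset.sum_sub_distrib, Finset.sum_add_distrib]
  abel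

/-- one term of the Jacobi identity -/
lemma jac_term (b : Fin N → Fin N → Fin N → ℂ) (f g h : Alg N) :
    tr (B b (opp b) f (B b (opp b) g h)) =
      - Hess g (XH b (opp b) f) (XH b (opp b) h) + Hess h (XH b (opp b) f) (XH b (opp b) g)
        - R b g h (XH b (opp b) f) := by
  rw [tr_B_skew, tr_B_eq_D, tr_D_B]
  abel

lemma jac_sum (b : Fin N → Fin N → Fin N → ℂ) (f g h : Alg N) :
    tr (B b (opp b) f (B b (opp b) g h)) + tr (B b (opp b) g (B b (opp b) h f))
      + tr (B b (opp b) h (B b (opp b) f g)) =
      - (R b g h (XH b (opp b) f) + R b h f (XH b (opp b) g) + R b f g (XH b (opp b) h)) := by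
  rw [jac_term, jac_term, jac_term, Hess_symm g (XH b (opp b) f), Hess_symm h (XH b (opp b) f),
    Hess_symm f (XH b (opp b) g)]
  abel

/-- left products `(e_i e_j) e_l` -/
def lp (b : Fin N → Fin N → Fin N → ℂ) (i j l p : Fin N) : ℂ := ∑ k, b i j k * b k l p
/-- right products `e_i (e_j e_l)` -/
def rp (b : Fin N → Fin N → Fin N → ℂ) (i j l p : Fin N) : ℂ := ∑ k, b j l k * b i k p

lemma V'_XH (b : Fin N → Fin N → Fin N → ℂ) (f g h : Alg N) :
    V' b (fun i => gradA i g) (fun j => gradA j h) (XH b (opp b) f)
      = U (lp b) g h f - U (rp b) f g h := by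
  have e1 : U (lp b) g h f = ∑ i, ∑ j, ∑ k, ∑ l, ∑ p, (b i j k * b k l p) •
      tr (gradA i g * gradA j h * gradA l f * X p) := by
    unfold U lp
    refine Finset.sum_congr rfl fun i _ => Finset.sum_congr rfl fun j _ => ?_
    simp only [Finset.sum_smul]
    rw [Finset.sum_comm (s := (Finset.univ : Finset (Fin N))) (t := Finset.univ)
      (f := fun k l => ∑ p, (b i j k * b k l p) •
        tr (gradA i g * gradA j h * gradA l f * X p))]
    refine Finset.sum_congr rfl fun l _ => ?_
    rw [Finset.sum_comm]
  have e2 : U (rp b) f g h = ∑ i, ∑ j, ∑ k, ∑ l, ∑ p, (b i j k * b l k p) •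
      tr (gradA i g * gradA j h * (X p * gradA l f)) := by
    unfold U rp
    rw [Finset.sum_comm]
    refine Finset.sum_congr rfl fun i _ => ?_
    rw [Finset.sum_comm]
    refine Finset.sum_congr rfl fun j _ => ?_
    simp only [Finset.sum_smul]
    rw [Finset.sum_comm (s := (Finset.univ : Finset (Fin N))) (t := Finset.univ)
      (f := fun k l => ∑ p, (b i j k * b l k p) •
        tr (gradA i g * gradA j h * (X p * gradA l f)))]
    refine Finset.sum_congr rfl fun l _ => ?_
    rw [Finset.sum_comm]
    refine Finset.sum_congr rfl fun k _ => Finset.sum_congr rfl fun p _ => ?_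
    congr 1
    rw [mul_assoc, mul_assoc, tr_mul_comm, mul_assoc, mul_assoc, mul_assoc]
  rw [e1, e2, V', ← Finset.sum_sub_distrib]
  refine Finset.sum_congr rfl fun i _ => ?_
  rw [← Finset.sum_sub_distrib]
  refine Finset.sum_congr rfl fun j _ => ?_
  rw [← Finset.sum_sub_distrib]
  refine Finset.sum_congr rfl fun k _ => ?_
  rw [XH_opp, Finset.mul_sum, map_sum, Finset.smul_sum, ← Finset.sum_sub_distrib]
  refine Finset.sum_congr rfl fun l _ => ?_
  rw [Finset.mul_sum, map_sum, Finset.smul_sum, ← Finset.sum_sub_distrib]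
  refine Finset.sum_congr rfl fun p _ => ?_
  rw [mul_sub, map_sub, smul_sub, mul_smul_comm, mul_smul_comm, map_smul, map_smul, smul_smul,
    smul_smul, mul_assoc (gradA i g * gradA j h)]

lemma U_sub (c d : Fin N → Fin N → Fin N → Fin N → ℂ) (f g h : Alg N) :
    U (fun i j l p => c i j l p - d i j l p) f g h = U c f g h - U d f g h := by
  simp only [U, sub_smul, Finset.sum_sub_distrib]

/-- associator -/
def assoc (b : Fin N → Fin N → Fin N → ℂ) (i j l p : Fin N) : ℂ := lp b i j l p - rp b i j l p

/-- antisymmetrisation -/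
def S (c : Fin N → Fin N → Fin N → Fin N → ℂ) (f g h : Alg N) : T N :=
  U c f g h + U c g h f + U c h f g - U c g f h - U c f h g - U c h g f

theorem jacobi_formula (b : Fin N → Fin N → Fin N → ℂ) (f g h : Alg N) :
    tr (B b (opp b) f (B b (opp b) g h)) + tr (B b (opp b) g (B b (opp b) h f))
      + tr (B b (opp b) h (B b (opp b) f g)) = - S (assoc b) f g h := by
  have hU : ∀ f g h : Alg N, U (assoc b) f g h = U (lp b) f g h - U (rp b) f g h :=
    fun f g h => U_sub _ _ f g h
  rw [jac_sum, R, R, R, S]
  simp only [V'_XH, hU]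
  abel

/-- `E f = Σ f_i x_i = Σ x_i f_i` -/
def E (f : Alg N) : Alg N := ∑ i, gradA i f * X i

lemma E_eq (f : Alg N) : E f = ∑ i, X i * gradA i f := euler f

lemma V_u (u : Fin N → ℂ) (f g : Alg N) :
    V (fun i j k => if j = k then u i else 0) f g = ∑ i, u i • tr (gradA i f * E g) := by
  unfold V E
  refine Finset.sum_congr rfl fun i _ => ?_
  rw [Finset.mul_sum, map_sum, Finset.smul_sum]
  refine Finset.sum_congr rfl fun j _ => ?_
  rw [Finset.sum_eq_single j]
  · beta_reduce
    rw [if_pos rfl, mul_assoc]
  · intro k _ hk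
    beta_reduce
    rw [if_neg (Ne.symm hk), zero_smul]
  · simp

lemma V_v (v : Fin N → ℂ) (f g : Alg N) :
    V (fun i j k => if i = k then v j else 0) f g = ∑ j, v j • tr (E f * gradA j g) := by
  unfold V
  rw [Finset.sum_comm]
  refine Finset.sum_congr rfl fun j _ => ?_
  rw [E_eq, Finset.sum_mul, map_sum, Finset.smul_sum]
  refine Finset.sum_congr rfl fun i _ => ?_
  rw [Finset.sum_eq_single i]
  · beta_reduce
    rw [if_pos rfl, tr_mul_comm, ← mul_assoc]
  · intro k _ hk
    beta_reduce
    rw [if_neg (Ne.symm hk), zero_smul]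
  · simp

lemma V_add (c d : Fin N → Fin N → Fin N → ℂ) (f g : Alg N) :
    V (fun i j k => c i j k + d i j k) f g = V c f g + V d f g := by
  simp only [V, add_smul, Finset.sum_add_distrib]

lemma V_neg (c : Fin N → Fin N → Fin N → ℂ) (f g : Alg N) :
    V (fun i j k => - c i j k) f g = - V c f g := by
  simp only [V, neg_smul, Finset.sum_neg_distrib]

/-- The bracket is unchanged by the kernel terms. -/
lemma tr_B_reduce (m : Fin N → Fin N → Fin N → ℂ) (u v : Fin N → ℂ)
    (b b' : Fin N → Fin N → Fin N → ℂ)
    (hb : ∀ i j k, b i j k = m i j k + (if j = k then u i else 0) + (if i = k then v j else 0))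
    (hb' : ∀ i j k, b' i j k = - m j i k - (if j = k then u i else 0) - (if i = k then v j else 0))
    (f g : Alg N) : tr (B b b' f g) = tr (B m (opp m) f g) := by
  have h1 : b = fun i j k => (m i j k + (if j = k then u i else 0)) + (if i = k then v j else 0) := by
    funext i j k; exact hb i j k
  have h2 : (fun i j k => b' j i k) = fun i j k =>
      (- m i j k + - (if i = k then u j else 0)) + - (if j = k then v i else 0) := by
    funext i j k; rw [hb' j i k]; ring
  rw [tr_B, h2, h1, V_add (fun i j k => (m i j k + (if j = k then u i else 0))), V_add m,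
    V_add (fun i j k => (- m i j k + - (if i = k then u j else 0))), V_add (fun i j k => - m i j k),
    V_neg, V_neg, V_neg, V_u, V_v, V_u, V_v, tr_B_opp]
  have e1 : ∑ i, u i • tr (gradA i f * E g) = ∑ i, u i • tr (E g * gradA i f) :=
    Finset.sum_congr rfl fun i _ => by rw [tr_mul_comm]
  have e2 : ∑ i, v i • tr (gradA i g * E f) = ∑ i, v i • tr (E f * gradA i g) :=
    Finset.sum_congr rfl fun i _ => by rw [tr_mul_comm]
  rw [e1, e2]
  abel

/-- `Q` -/
def Q (w : Fin N → Fin N → ℂ) (f g h : Alg N) : T N :=
  ∑ i, ∑ j, w i j • tr (gradA i f * gradA j g * E h)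

lemma U_w1 (w : Fin N → Fin N → ℂ) (f g h : Alg N) :
    U (fun i j l p => if i = p then w j l else 0) f g h = Q w g h f := by
  unfold U Q
  rw [Finset.sum_comm]
  refine Finset.sum_congr rfl fun j _ => ?_
  rw [Finset.sum_comm]
  refine Finset.sum_congr rfl fun l _ => ?_
  rw [E_eq, Finset.mul_sum, map_sum, Finset.smul_sum]
  refine Finset.sum_congr rfl fun i _ => ?_
  rw [Finset.sum_eq_single i]
  · beta_reduce
    rw [if_pos rfl]
    congr 1
    rw [mul_assoc, mul_assoc, tr_mul_comm]
    simp only [mul_assoc]
  · intro k _ hk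
    beta_reduce
    rw [if_neg (Ne.symm hk), zero_smul]
  · simp

lemma U_w2 (w : Fin N → Fin N → ℂ) (f g h : Alg N) :
    U (fun i j l p => if l = p then w i j else 0) f g h = Q w f g h := by
  unfold U Q
  refine Finset.sum_congr rfl fun i _ => Finset.sum_congr rfl fun j _ => ?_
  rw [E, Finset.mul_sum, map_sum, Finset.smul_sum]
  refine Finset.sum_congr rfl fun l _ => ?_
  rw [Finset.sum_eq_single l]
  · beta_reduce
    rw [if_pos rfl]
    congr 1
    simp only [mul_assoc]
  · intro k _ hk
    beta_reduce
    rw [if_neg (Ne.symm hk), zero_smul]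
  · simp

lemma S_zero (c : Fin N → Fin N → Fin N → Fin N → ℂ) (w : Fin N → Fin N → ℂ)
    (hc : ∀ i j l p, c i j l p = (if i = p then w j l else 0) - (if l = p then w i j else 0))
    (f g h : Alg N) : S c f g h = 0 := by
  have h1 : c = fun i j l p => (if i = p then w j l else 0) - (if l = p then w i j else 0) := by
    funext i j l p; exact hc i j l p
  have h2 : ∀ f g h : Alg N, U c f g h = Q w g h f - Q w f g h := by
    intro f g h
    rw [h1, U_sub, U_w1, U_w2]
  simp only [S, h2]
  abel

lemma assoc_of_hatMul (m : Fin N → Fin N → Fin N → ℂ) (w : Fin N → Fin N → ℂ)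
    (h : ∀ p q r, hatMul m w (hatMul m w p q) r = hatMul m w p (hatMul m w q r)) (i j l p : Fin N) :
    assoc m i j l p = (if i = p then w j l else 0) - (if l = p then w i j else 0) := by
  have := congrFun (congrArg Prod.snd (h (0, Pi.single i 1) (0, Pi.single j 1) (0, Pi.single l 1))) p
  simp only [hatMul, Pi.single_apply] at this
  simp [Finset.sum_ite_eq'] at this
  rw [assoc, lp, rp]
  simp only [eq_comm (a := i) (b := p), eq_comm (a := l) (b := p)]
  linear_combination this

/-- coefficient of the cyclic word `C`, on `A` -/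
def coefA (C : List (Fin N)) : Alg N →ₗ[ℂ] ℂ :=
  (FreeAlgebra.basisFreeMonoid ℂ (Fin N)).constr ℂ
    (fun w => if List.IsRotated (FreeMonoid.toList w) C then 1 else 0)

lemma coefA_word (C w : List (Fin N)) :
    coefA C (word w) = if List.IsRotated w C then 1 else 0 := by
  rw [← basis_apply, coefA, Module.Basis.constr_basis]
  rfl

lemma coefA_mul_comm (C : List (Fin N)) (a b : Alg N) : coefA C (a * b) = coefA C (b * a) := by
  induction a using alg_induction with
  | hw u =>
      induction b using alg_induction with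
      | hw v =>
          rw [← word_append, ← word_append, coefA_word, coefA_word]
          have : List.IsRotated (u ++ v) C ↔ List.IsRotated (v ++ u) C :=
            ⟨fun h => (List.isRotated_append (l := v) (l' := u)).trans h,
              fun h => (List.isRotated_append (l := u) (l' := v)).trans h⟩
          simp only [this]
      | hadd a b ha hb => rw [mul_add, add_mul, map_add, map_add, ha, hb]
      | hsmul c a ha => rw [mul_smul_comm, smul_mul_assoc, map_smul, map_smul, ha]
  | hadd a b ha hb => rw [mul_add, add_mul, map_add, map_add, ha, hb]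
  | hsmul c a ha => rw [mul_smul_comm, smul_mul_assoc, map_smul, map_smul, ha]

lemma comm_le_ker_coef (C : List (Fin N)) : comm N ≤ LinearMap.ker (coefA C) := by
  rw [comm, Submodule.span_le]
  rintro c ⟨a, b, rfl⟩
  rw [SetLike.mem_coe, LinearMap.mem_ker, map_sub, coefA_mul_comm, sub_self]

/-- coefficient of the cyclic word `C` -/
def coef (C : List (Fin N)) : T N →ₗ[ℂ] ℂ := (comm N).liftQ (coefA C) (comm_le_ker_coef C)

lemma coef_tr (C : List (Fin N)) (a : Alg N) : coef C (tr a) = coefA C a := by
  simp [coef, tr]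

/-- cuts of a word with accumulated left part -/
def cutsG {α : Type*} : List α → List α → List (α × List α)
  | _, [] => []
  | u, a :: w => (a, w ++ u) :: cutsG (u ++ [a]) w

lemma cutsAux_eq (u w : List (Fin N)) : cutsAux u w = cutsG u w := by
  induction w generalizing u with
  | nil => rfl
  | cons a w ih => rw [cutsAux, cutsG, ih]

lemma cutsG_map {α β : Type*} (val : α → β) (u w : List α) :
    cutsG (u.map val) (w.map val) = (cutsG u w).map (fun c => (val c.1, c.2.map val)) := by
  induction w generalizing u with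
  | nil => rfl
  | cons a w ih =>
      have := ih (u ++ [a])
      rw [List.map_append, List.map_cons, List.map_nil] at this
      simp only [List.map_cons, cutsG, List.map_append, this]

lemma mem_cutsG {α : Type*} (u w : List α) (p : α) (Y : List α) :
    (p, Y) ∈ cutsG u w ↔ ∃ m < w.length, (w ++ u).rotate m = p :: Y := by
  induction w generalizing u with
  | nil => simp [cutsG]
  | cons a w ih =>
      rw [cutsG, List.mem_cons, ih]
      constructor
      · rintro (h | ⟨m, hm, h⟩)
        · rw [Prod.mk.injEq] at h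
          exact ⟨0, by simp, by simp [h.1, h.2]⟩
        · refine ⟨m + 1, by simpa using hm, ?_⟩
          rw [List.cons_append, List.rotate_cons_succ, List.append_assoc]
          exact h
      · rintro ⟨m, hm, h⟩
        rcases m with _ | m
        · left
          simp only [List.cons_append, List.rotate_zero, List.cons.injEq] at h
          rw [h.1, h.2]
        · right
          refine ⟨m, by simpa using hm, ?_⟩
          rw [List.cons_append, List.rotate_cons_succ, List.append_assoc] at h
          exact h

lemma isRotated_iff_mem_cutsG {α : Type*} (C Y : List α) (p : α) :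
    List.IsRotated (Y ++ [p]) C ↔ (p, Y) ∈ cutsG [] C := by
  rw [mem_cutsG, List.append_nil]
  have h1 : List.IsRotated (Y ++ [p]) C ↔ List.IsRotated C (p :: Y) := by
    have h2 : List.IsRotated (p :: Y) (Y ++ [p]) := by
      have := List.isRotated_append (l := [p]) (l' := Y)
      simpa using this
    constructor
    · intro h; exact (h2.trans h).symm
    · intro h; exact (h.trans h2).symm
  rw [h1, List.isRotated_iff_mod]
  constructor
  · rintro ⟨m, hm, h⟩
    rcases Nat.lt_or_ge m C.length with h' | h'
    · exact ⟨m, h', h⟩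
    · have hm' : m = C.length := le_antisymm hm h'
      subst hm'
      rw [List.rotate_length] at h
      refine ⟨0, ?_, ?_⟩
      · rw [h]; simp
      · rw [List.rotate_zero, h]
  · rintro ⟨m, hm, h⟩
    exact ⟨m, hm.le, h⟩

lemma sum_grad_word {M : Type*} [AddCommGroup M] [Module ℂ M] (Φ : Fin N → Alg N →ₗ[ℂ] M)
    (F : List (Fin N)) :
    ∑ i, Φ i (gradA i (word F)) = ((cutsG [] F).map (fun c => Φ c.1 (word c.2))).sum := by
  rw [← cutsAux_eq, ← sum_rotate_eq_cuts (fun a v => Φ a (word v))
    (fun l => match l with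
      | [] => 0
      | a :: v => Φ a (word v)) (fun a v => rfl)]
  simp only [gradA_word, gradWord, map_sum]
  rw [Finset.sum_comm]
  refine Finset.sum_congr rfl fun m _ => ?_
  rw [List.append_nil]
  rcases F.rotate m with _ | ⟨a, v⟩
  · simp
  · simp [apply_ite]

/-- evaluation of `U` on words -/
lemma coef_U_word (c : Fin N → Fin N → Fin N → Fin N → ℂ) (F G H C : List (Fin N)) :
    coef C (U c (word F) (word G) (word H)) =
      ((cutsG [] F).map fun x => ((cutsG [] G).map fun y => ((cutsG [] H).map fun z =>
        ∑ p, c x.1 y.1 z.1 p * (if (p, x.2 ++ y.2 ++ z.2) ∈ cutsG [] C then 1 else 0)).sum).sum).sum := by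
  have key : ∀ (r s t : List (Fin N)) (p : Fin N),
      coef C (tr (word r * word s * word t * X p))
        = if (p, r ++ s ++ t) ∈ cutsG [] C then 1 else 0 := by
    intro r s t p
    rw [← word_singleton, ← word_append, ← word_append, ← word_append, coef_tr, coefA_word]
    simp only [isRotated_iff_mem_cutsG]
  have h3 : ∀ (i j : Fin N) (r s : List (Fin N)),
      ∑ l, ∑ p, c i j l p * coef C (tr (word r * word s * gradA l (word H) * X p))
      = ((cutsG [] H).map fun z =>
        ∑ p, c i j z.1 p * (if (p, r ++ s ++ z.2) ∈ cutsG [] C then 1 else 0)).sum := by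
    intro i j r s
    have := sum_grad_word (fun l => ∑ p, c i j l p • ((coef C) ∘ₗ tr ∘ₗ
      (LinearMap.mulRight ℂ (X p)) ∘ₗ (LinearMap.mulLeft ℂ (word r * word s)))) H
    simp only [LinearMap.sum_apply, LinearMap.smul_apply, LinearMap.comp_apply,
      LinearMap.mulRight_apply, LinearMap.mulLeft_apply, smul_eq_mul, key] at this
    exact this
  have h2 : ∀ (i : Fin N) (r : List (Fin N)),
      ∑ j, ∑ l, ∑ p, c i j l p * coef C (tr (word r * gradA j (word G) * gradA l (word H) * X p))
      = ((cutsG [] G).map fun y => ((cutsG [] H).map fun z =>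
        ∑ p, c i y.1 z.1 p * (if (p, r ++ y.2 ++ z.2) ∈ cutsG [] C then 1 else 0)).sum).sum := by
    intro i r
    have := sum_grad_word (fun j => ∑ l, ∑ p, c i j l p • ((coef C) ∘ₗ tr ∘ₗ
      (LinearMap.mulRight ℂ (X p)) ∘ₗ (LinearMap.mulRight ℂ (gradA l (word H))) ∘ₗ
        (LinearMap.mulLeft ℂ (word r)))) G
    simp only [LinearMap.sum_apply, LinearMap.smul_apply, LinearMap.comp_apply,
      LinearMap.mulRight_apply, LinearMap.mulLeft_apply, smul_eq_mul, h3] at this
    exact this
  have := sum_grad_word (fun i => ∑ j, ∑ l, ∑ p, c i j l p • ((coef C) ∘ₗ tr ∘ₗ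
      (LinearMap.mulRight ℂ (X p)) ∘ₗ (LinearMap.mulRight ℂ (gradA l (word H))) ∘ₗ
        (LinearMap.mulRight ℂ (gradA j (word G))))) F
  simp only [LinearMap.sum_apply, LinearMap.smul_apply, LinearMap.comp_apply,
      LinearMap.mulRight_apply, LinearMap.mulLeft_apply, smul_eq_mul, h2] at this
  rw [← this, U]
  simp only [map_sum, map_smul, smul_eq_mul]

/-- evaluation of `V` on words -/
lemma coef_V_word (c : Fin N → Fin N → Fin N → ℂ) (F G C : List (Fin N)) :
    coef C (V c (word F) (word G)) =
      ((cutsG [] F).map fun x => ((cutsG [] G).map fun y =>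
        ∑ p, c x.1 y.1 p * (if (p, x.2 ++ y.2) ∈ cutsG [] C then 1 else 0)).sum).sum := by
  have key : ∀ (r s : List (Fin N)) (p : Fin N),
      coef C (tr (word r * word s * X p))
        = if (p, r ++ s) ∈ cutsG [] C then 1 else 0 := by
    intro r s p
    rw [← word_singleton, ← word_append, ← word_append, coef_tr, coefA_word]
    simp only [isRotated_iff_mem_cutsG]
  have h2 : ∀ (i : Fin N) (r : List (Fin N)),
      ∑ j, ∑ p, c i j p * coef C (tr (word r * gradA j (word G) * X p))
      = ((cutsG [] G).map fun y =>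
        ∑ p, c i y.1 p * (if (p, r ++ y.2) ∈ cutsG [] C then 1 else 0)).sum := by
    intro i r
    have := sum_grad_word (fun j => ∑ p, c i j p • ((coef C) ∘ₗ tr ∘ₗ
      (LinearMap.mulRight ℂ (X p)) ∘ₗ
        (LinearMap.mulLeft ℂ (word r)))) G
    simp only [LinearMap.sum_apply, LinearMap.smul_apply, LinearMap.comp_apply,
      LinearMap.mulRight_apply, LinearMap.mulLeft_apply, smul_eq_mul, key] at this
    exact this
  have := sum_grad_word (fun i => ∑ j, ∑ p, c i j p • ((coef C) ∘ₗ tr ∘ₗ
      (LinearMap.mulRight ℂ (X p)) ∘ₗ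
        (LinearMap.mulRight ℂ (gradA j (word G))))) F
  simp only [LinearMap.sum_apply, LinearMap.smul_apply, LinearMap.comp_apply,
      LinearMap.mulRight_apply, LinearMap.mulLeft_apply, smul_eq_mul, h2] at this
  rw [← this, V]
  simp only [map_sum, map_smul, smul_eq_mul]

/-- merging step of a naive union-find -/
def stepR (rep : List ℕ) (x y : ℕ) : List ℕ :=
  if rep.getD x x = rep.getD y y then rep
  else rep.map (fun c => if c = rep.getD y y then rep.getD x x else c)

/-- can the two coded words be equal under a valuation with `0 ≠ 1`, `0 ≠ 3`? -/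
def consis : List ℕ → List ℕ → List ℕ → Bool
  | rep, x :: r, y :: s =>
      if (stepR rep x y).getD 0 0 = (stepR rep x y).getD 1 1 ∨
          (stepR rep x y).getD 0 0 = (stepR rep x y).getD 3 3 then false
      else consis (stepR rep x y) r s
  | _, _, _ => true

lemma stepR_inv {α : Type*} (val : ℕ → α) (rep : List ℕ) (x y : ℕ)
    (h : ∀ z, val (rep.getD z z) = val z) (hxy : val x = val y) :
    ∀ z, val ((stepR rep x y).getD z z) = val z := by
  intro z
  unfold stepR
  split_ifs with h1
  · exact h z
  · rcases Nat.lt_or_ge z rep.length with hz | hz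
    · have e1 : (rep.map (fun c => if c = rep.getD y y then rep.getD x x else c)).getD z z
          = (if rep.getD z z = rep.getD y y then rep.getD x x else rep.getD z z) := by
        rw [List.getD_eq_getElem _ _ (by simpa using hz), List.getElem_map,
          ← List.getD_eq_getElem _ z hz]
      rw [e1]
      split_ifs with h2
      · rw [← h z, h2, h x, h y, hxy]
      · exact h z
    · rw [List.getD_eq_default _ _ (by simpa using hz)]

lemma consis_sound {α : Type*} (val : ℕ → α) (h01 : val 0 ≠ val 1) (h03 : val 0 ≠ val 3) :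
    ∀ (r s rep : List ℕ), (∀ z, val (rep.getD z z) = val z) → r.map val = s.map val →
      consis rep r s = true := by
  intro r
  induction r with
  | nil => intro s rep _ _; simp [consis]
  | cons x r ih =>
      intro s rep h hrs
      rcases s with _ | ⟨y, s⟩
      · simp [consis]
      · rw [List.map_cons, List.map_cons, List.cons.injEq] at hrs
        have hinv := stepR_inv val rep x y h hrs.1
        rw [consis]
        rw [if_neg]
        · exact ih s _ hinv hrs.2
        · rintro (h1 | h1)
          · apply h01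
            rw [← hinv 0, h1, hinv 1]
          · apply h03
            rw [← hinv 0, h1, hinv 3]

/-- live rotations -/
def live (C X : List ℕ) : List (ℕ × List ℕ) :=
  (cutsG [] C).filter (fun ar => consis [0, 1, 2, 3, 4, 5] ar.2 X)

lemma init_inv {α : Type*} (val : ℕ → α) : ∀ z, val (([0, 1, 2, 3, 4, 5] : List ℕ).getD z z) = val z := by
  intro z
  rcases Nat.lt_or_ge z 6 with h | h
  · interval_cases z <;> rfl
  · rw [List.getD_eq_default _ _ (by simpa using h)]

lemma term_eval (c : Fin N → ℂ) (val : ℕ → Fin N) (h01 : val 0 ≠ val 1) (h03 : val 0 ≠ val 3)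
    (C X : List ℕ) (hl : (live C X).length ≤ 1) :
    ∑ p, c p * (if (p, X.map val) ∈ cutsG [] (C.map val) then 1 else 0)
      = ((live C X).map (fun ar => c (val ar.1) *
          (if ar.2.map val = X.map val then (1 : ℂ) else 0))).sum := by
  have hmem : ∀ p, (p, X.map val) ∈ cutsG [] (C.map val) ↔
      ∃ ar ∈ live C X, val ar.1 = p ∧ ar.2.map val = X.map val := by
    intro p
    have : cutsG ([] : List (Fin N)) (C.map val) = (cutsG [] C).map (fun c => (val c.1, c.2.map val)) :=
      cutsG_map val [] C
    rw [this, List.mem_map]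
    constructor
    · rintro ⟨ar, h1, h2⟩
      rw [Prod.mk.injEq] at h2
      refine ⟨ar, ?_, h2.1, h2.2⟩
      rw [live, List.mem_filter]
      exact ⟨h1, consis_sound val h01 h03 _ _ _ (init_inv val) h2.2⟩
    · rintro ⟨ar, h1, h2, h3⟩
      rw [live, List.mem_filter] at h1
      exact ⟨ar, h1.1, by rw [h2, h3]⟩
  simp only [hmem]
  rcases hL : live C X with _ | ⟨ar, _ | ⟨br, t⟩⟩
  · simp
  · simp only [List.mem_singleton, exists_eq_left, List.map_cons, List.map_nil, List.sum_cons,
      List.sum_nil, add_zero]
    rw [Finset.sum_eq_single (val ar.1)]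
    · by_cases h : ar.2.map val = X.map val <;> simp [h]
    · intro p _ hp
      rw [if_neg, mul_zero]
      rintro ⟨h1, _⟩
      exact hp h1.symm
    · simp
  · rw [hL] at hl
    simp at hl

/-- all live configurations -/
def allLive (F G H C : List ℕ) : List (ℕ × ℕ × ℕ × ℕ × List ℕ × List ℕ) :=
  (cutsG [] F).flatMap fun x => (cutsG [] G).flatMap fun y => (cutsG [] H).flatMap fun z =>
    (live C (x.2 ++ y.2 ++ z.2)).map fun ar => (x.1, y.1, z.1, ar.1, ar.2, x.2 ++ y.2 ++ z.2)

lemma sum_flatMap' {α β : Type*} (l : List α) (f : α → List β) (g : β → ℂ) :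
    ((l.flatMap f).map g).sum = (l.map (fun a => ((f a).map g).sum)).sum := by
  induction l with
  | nil => simp
  | cons a l ih => simp [List.flatMap_cons, ih]

lemma length_flatMap_le {α β : Type*} (l : List α) (f : α → List β) (a : α) (ha : a ∈ l) :
    (f a).length ≤ (l.flatMap f).length := by
  induction l with
  | nil => simp at ha
  | cons b l ih =>
      rw [List.flatMap_cons, List.length_append]
      rcases List.mem_cons.1 ha with rfl | h
      · omega
      · have := ih h; omega

theorem coef_U_coded (c : Fin N → Fin N → Fin N → Fin N → ℂ) (val : ℕ → Fin N)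
    (h01 : val 0 ≠ val 1) (h03 : val 0 ≠ val 3) (F G H C : List ℕ)
    (hl : (allLive F G H C).length ≤ 1) :
    coef (C.map val) (U c (word (F.map val)) (word (G.map val)) (word (H.map val))) =
      ((allLive F G H C).map (fun q => c (val q.1) (val q.2.1) (val q.2.2.1) (val q.2.2.2.1) *
        (if q.2.2.2.2.1.map val = q.2.2.2.2.2.map val then (1 : ℂ) else 0))).sum := by
  rw [coef_U_word]
  have hc : ∀ w : List ℕ, cutsG ([] : List (Fin N)) (w.map val)
      = (cutsG [] w).map (fun c => (val c.1, c.2.map val)) := fun w => cutsG_map val [] w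
  rw [hc F, hc G, hc H, allLive, sum_flatMap', List.map_map]
  congr 1
  refine List.map_congr_left fun x hx => ?_
  rw [sum_flatMap', Function.comp_apply, List.map_map]
  congr 1
  refine List.map_congr_left fun y hy => ?_
  rw [sum_flatMap', Function.comp_apply, List.map_map]
  congr 1
  refine List.map_congr_left fun z hz => ?_
  rw [Function.comp_apply, List.map_map]
  dsimp only
  rw [← List.map_append, ← List.map_append, term_eval (fun p => c (val x.1) (val y.1) (val z.1) p)
    val h01 h03]
  · rfl
  · have e1 := length_flatMap_le (cutsG [] F) (fun x => (cutsG [] G).flatMap fun y =>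
      (cutsG [] H).flatMap fun z => (live C (x.2 ++ y.2 ++ z.2)).map fun ar =>
        (x.1, y.1, z.1, ar.1, ar.2, x.2 ++ y.2 ++ z.2)) x hx
    have e2 := length_flatMap_le (cutsG [] G) (fun y =>
      (cutsG [] H).flatMap fun z => (live C (x.2 ++ y.2 ++ z.2)).map fun ar =>
        (x.1, y.1, z.1, ar.1, ar.2, x.2 ++ y.2 ++ z.2)) y hy
    have e3 := length_flatMap_le (cutsG [] H) (fun z => (live C (x.2 ++ y.2 ++ z.2)).map fun ar =>
        (x.1, y.1, z.1, ar.1, ar.2, x.2 ++ y.2 ++ z.2)) z hz
    rw [List.length_map] at e3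
    exact e3.trans (e2.trans (e1.trans hl))

/-- marker words -/
def F0 : List ℕ := [2, 1, 0, 0]
/-- marker words -/
def G0 : List ℕ := [3, 1, 1, 0, 1]
/-- marker words -/
def H0 : List ℕ := [4, 0, 1, 0, 1, 0, 0]
/-- target word -/
def C0 : List ℕ := [1, 0, 0, 1, 1, 0, 1, 0, 1, 0, 1, 0, 0, 5]

set_option synthInstance.maxSize 1000 in
lemma live_FGH : allLive F0 G0 H0 C0 =
    [(2, 3, 4, 5, [1, 0, 0, 1, 1, 0, 1, 0, 1, 0, 1, 0, 0], [1, 0, 0, 1, 1, 0, 1, 0, 1, 0, 1, 0, 0])] := by
  decide +kernel

set_option synthInstance.maxSize 1000 in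
lemma live_GHF : allLive G0 H0 F0 C0 =
    [(3, 4, 0, 0, [1, 1, 0, 1, 0, 1, 0, 1, 0, 0, 5, 1, 0], [1, 1, 0, 1, 0, 1, 0, 1, 0, 0, 2, 1, 0])] := by
  decide +kernel

set_option synthInstance.maxSize 1000 in
lemma live_HFG : allLive H0 F0 G0 C0 =
    [(0, 2, 3, 0, [1, 0, 1, 0, 0, 5, 1, 0, 0, 1, 1, 0, 1], [1, 0, 1, 0, 0, 4, 1, 0, 0, 1, 1, 0, 1])] := by
  decide +kernel

lemma live_GFH : allLive G0 F0 H0 C0 = [] := by decide +kernel
lemma live_FHG : allLive F0 H0 G0 C0 = [] := by decide +kernel
lemma live_HGF : allLive H0 G0 F0 C0 = [] := by decide +kernel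

/-- valuation of the codes -/
def valu (k k' i j l p : Fin N) : ℕ → Fin N
  | 0 => k
  | 1 => k'
  | 2 => i
  | 3 => j
  | 4 => l
  | _ => p

/-- relation (R) -/
lemma relR (c : Fin N → Fin N → Fin N → Fin N → ℂ) (hJ : ∀ f g h : Alg N, S c f g h = 0)
    (i j l p k k' : Fin N) (hk : k ≠ k') (hj : k ≠ j) :
    c i j l p + (if p = i then c j l k k else 0) + (if p = l then c k i j k else 0) = 0 := by
  have h := congrArg (coef (C0.map (valu k k' i j l p)))
    (hJ (word (F0.map (valu k k' i j l p))) (word (G0.map (valu k k' i j l p)))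
      (word (H0.map (valu k k' i j l p))))
  have h01 : valu k k' i j l p 0 ≠ valu k k' i j l p 1 := hk
  have h03 : valu k k' i j l p 0 ≠ valu k k' i j l p 3 := hj
  rw [S] at h
  simp only [map_add, map_sub, map_zero] at h
  rw [coef_U_coded c _ h01 h03 F0 G0 H0 C0 (by rw [live_FGH]; simp),
    coef_U_coded c _ h01 h03 G0 H0 F0 C0 (by rw [live_GHF]; simp),
    coef_U_coded c _ h01 h03 H0 F0 G0 C0 (by rw [live_HFG]; simp),
    coef_U_coded c _ h01 h03 G0 F0 H0 C0 (by rw [live_GFH]; simp),
    coef_U_coded c _ h01 h03 F0 H0 G0 C0 (by rw [live_FHG]; simp),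
    coef_U_coded c _ h01 h03 H0 G0 F0 C0 (by rw [live_HGF]; simp),
    live_FGH, live_GHF, live_HFG, live_GFH, live_FHG, live_HGF] at h
  simpa [valu] using h

/-- the shape of the associator -/
lemma assoc_shape [Nontrivial (Fin N)] (c : Fin N → Fin N → Fin N → Fin N → ℂ)
    (hJ : ∀ f g h : Alg N, S c f g h = 0) :
    ∃ w : Fin N → Fin N → ℂ, ∀ i j l p,
      c i j l p = (if i = p then w j l else 0) - (if l = p then w i j else 0) := by
  have hR : ∀ i j l p k, k ≠ j →
      c i j l p + (if p = i then c j l k k else 0) + (if p = l then c k i j k else 0) = 0 := by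
    intro i j l p k hk
    obtain ⟨k', hk'⟩ := exists_ne k
    exact relR c hJ i j l p k k' hk'.symm hk
  choose κ hκ using fun j : Fin N => exists_ne j
  refine ⟨fun i j => c (κ j) i j (κ j), ?_⟩
  have h1 : ∀ i j l, l ≠ i → c i j l l = - c (κ j) i j (κ j) := by
    intro i j l hl
    have := hR i j l l (κ j) (hκ j)
    rw [if_neg hl, if_pos rfl] at this
    linear_combination this
  intro i j l p
  have hr := hR i j l p (κ j) (hκ j)
  rw [h1 j l (κ j) (hκ j)] at hr
  simp only [eq_comm (a := i) (b := p), eq_comm (a := l) (b := p)]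
  have e1 : (if p = i then - c (κ l) j l (κ l) else 0) = - (if p = i then c (κ l) j l (κ l) else 0) := by
    split_ifs <;> simp
  rw [e1] at hr
  linear_combination hr

/-- structure map -/
def mu (m : Fin N → Fin N → Fin N → ℂ) : (Fin N → ℂ) →ₗ[ℂ] (Fin N → ℂ) →ₗ[ℂ] (Fin N → ℂ) :=
  LinearMap.mk₂ ℂ (fun x y k => ∑ i, ∑ j, x i * y j * m i j k)
    (by intro x x' y; ext k; simp [add_mul, Finset.sum_add_distrib])
    (by intro c x y; ext k; simp [Finset.mul_sum, mul_assoc])
    (by intro x y y'; ext k; simp [add_mul, mul_add, Finset.sum_add_distrib])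
    (by
      intro c x y; ext k
      simp only [Pi.smul_apply, smul_eq_mul, Finset.mul_sum]
      refine Finset.sum_congr rfl fun i _ => Finset.sum_congr rfl fun j _ => ?_
      ring)

/-- bilinear form -/
def om (w : Fin N → Fin N → ℂ) : (Fin N → ℂ) →ₗ[ℂ] (Fin N → ℂ) →ₗ[ℂ] ℂ :=
  LinearMap.mk₂ ℂ (fun x y => ∑ i, ∑ j, x i * y j * w i j)
    (by intro x x' y; simp [add_mul, Finset.sum_add_distrib])
    (by intro c x y; simp [Finset.mul_sum, mul_assoc])
    (by intro x y y'; simp [add_mul, mul_add, Finset.sum_add_distrib])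
    (by
      intro c x y
      simp only [Pi.smul_apply, smul_eq_mul, Finset.mul_sum]
      refine Finset.sum_congr rfl fun i _ => Finset.sum_congr rfl fun j _ => ?_
      ring)

lemma hatMul_eq (m : Fin N → Fin N → Fin N → ℂ) (w : Fin N → Fin N → ℂ)
    (p q : ℂ × (Fin N → ℂ)) :
    hatMul m w p q = (p.1 * q.1 + om w p.2 q.2, p.1 • q.2 + q.1 • p.2 + mu m p.2 q.2) := rfl

lemma mu_single (m : Fin N → Fin N → Fin N → ℂ) (i j : Fin N) :
    mu m (Pi.single i 1) (Pi.single j 1) = fun k => m i j k := by
  ext k
  simp [mu, Pi.single_apply]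

lemma om_single (w : Fin N → Fin N → ℂ) (i j : Fin N) :
    om w (Pi.single i 1) (Pi.single j 1) = w i j := by
  simp [om, Pi.single_apply]

lemma mu_single_right (m : Fin N → Fin N → Fin N → ℂ) (x : Fin N → ℂ) (j : Fin N) :
    mu m x (Pi.single j 1) = fun k => ∑ i, x i * m i j k := by
  ext k
  simp [mu, Pi.single_apply]

lemma mu_single_left (m : Fin N → Fin N → Fin N → ℂ) (x : Fin N → ℂ) (j : Fin N) :
    mu m (Pi.single j 1) x = fun k => ∑ i, x i * m j i k := by
  ext k
  simp [mu, Pi.single_apply]

lemma lin_ext {M : Type*} [AddCommGroup M] [Module ℂ M] (f g : (Fin N → ℂ) →ₗ[ℂ] M)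
    (h : ∀ i, f (Pi.single i 1) = g (Pi.single i 1)) : f = g := by
  apply LinearMap.pi_ext'
  intro i
  ext
  simpa using h i

/-- the associator identity for all vectors -/
lemma assoc_all (m : Fin N → Fin N → Fin N → ℂ) (w : Fin N → Fin N → ℂ)
    (h : ∀ i j l p, assoc m i j l p = (if i = p then w j l else 0) - (if l = p then w i j else 0))
    (x y z : Fin N → ℂ) :
    mu m (mu m x y) z - mu m x (mu m y z) = om w y z • x - om w x y • z := by
  have key : ∀ i j l, mu m (mu m (Pi.single i 1) (Pi.single j 1)) (Pi.single l 1)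
      - mu m (Pi.single i 1) (mu m (Pi.single j 1) (Pi.single l 1))
      = om w (Pi.single j 1) (Pi.single l 1) • (Pi.single i 1 : Fin N → ℂ)
        - om w (Pi.single i 1) (Pi.single j 1) • (Pi.single l 1 : Fin N → ℂ) := by
    intro i j l
    rw [mu_single, mu_single, mu_single_right, mu_single_left, om_single, om_single]
    ext p
    have := h i j l p
    rw [assoc, lp, rp] at this
    simp only [Pi.sub_apply, Pi.smul_apply, Pi.single_apply, smul_eq_mul, mul_ite, mul_one,
      mul_zero, eq_comm (a := p)]
    exact this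
  have k3 : ∀ i j, (mu m (mu m (Pi.single i 1) (Pi.single j 1)))
      - (mu m (Pi.single i 1)) ∘ₗ (mu m (Pi.single j 1))
      = (om w (Pi.single j 1)).smulRight (Pi.single i 1 : Fin N → ℂ)
        - om w (Pi.single i 1) (Pi.single j 1) • LinearMap.id := by
    intro i j
    apply lin_ext
    intro l
    simpa using key i j l
  have k3' : ∀ i j z, (mu m (mu m (Pi.single i 1) (Pi.single j 1))) z
      - (mu m (Pi.single i 1)) ((mu m (Pi.single j 1)) z)
      = (om w (Pi.single j 1)) z • (Pi.single i 1 : Fin N → ℂ)
        - om w (Pi.single i 1) (Pi.single j 1) • z := by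
    intro i j z
    simpa using LinearMap.congr_fun (k3 i j) z
  have k2 : ∀ i z, ((mu m).flip z) ∘ₗ (mu m (Pi.single i 1))
      - (mu m (Pi.single i 1)) ∘ₗ ((mu m).flip z)
      = ((om w).flip z).smulRight (Pi.single i 1 : Fin N → ℂ)
        - (om w (Pi.single i 1)).smulRight z := by
    intro i z
    apply lin_ext
    intro j
    simpa using k3' i j z
  have k2' : ∀ i y z, mu m (mu m (Pi.single i 1) y) z - mu m (Pi.single i 1) (mu m y z)
      = om w y z • (Pi.single i 1 : Fin N → ℂ) - om w (Pi.single i 1) y • z := by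
    intro i y z
    simpa using LinearMap.congr_fun (k2 i z) y
  have k1 : ((mu m).flip z) ∘ₗ ((mu m).flip y) - (mu m).flip (mu m y z)
      = om w y z • LinearMap.id - ((om w).flip y).smulRight z := by
    apply lin_ext
    intro i
    simpa using k2' i y z
  simpa using LinearMap.congr_fun k1 x

/-- invariance of `w` -/
lemma om_inv [Nontrivial (Fin N)] (m : Fin N → Fin N → Fin N → ℂ) (w : Fin N → Fin N → ℂ)
    (h : ∀ x y z, mu m (mu m x y) z - mu m x (mu m y z) = om w y z • x - om w x y • z)
    (x y z : Fin N → ℂ) : om w (mu m x y) z = om w x (mu m y z) := by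
  have teich : ∀ a b c d : Fin N → ℂ,
      (om w a (mu m b c) - om w (mu m a b) c) • d
        + (om w b (mu m c d) - om w (mu m b c) d) • a = 0 := by
    intro a b c d
    have e1 := h (mu m a b) c d
    have e2 := h a (mu m b c) d
    have e3 := h a b (mu m c d)
    have e4 := congrArg (mu m a) (h b c d)
    have e5 := congrArg (fun t => mu m t d) (h a b c)
    simp only [map_sub, LinearMap.sub_apply, map_smul, LinearMap.smul_apply] at e4 e5
    have e6 : om w b (mu m c d) • a - om w (mu m b c) d • a - om w (mu m a b) c • d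
        + om w a (mu m b c) • d = 0 := by
      have h1 : mu m (mu m (mu m a b) c) d = mu m (mu m a b) (mu m c d)
          + (om w c d • mu m a b - om w (mu m a b) c • d) := by
        rw [← e1]; abel
      have h2 : mu m (mu m a (mu m b c)) d = mu m a (mu m (mu m b c) d)
          + (om w (mu m b c) d • a - om w a (mu m b c) • d) := by
        rw [← e2]; abel
      have h3 : mu m (mu m a b) (mu m c d) = mu m a (mu m b (mu m c d))
          + (om w b (mu m c d) • a - om w a b • mu m c d) := by
        rw [← e3]; abel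
      rw [h1, h2, h3] at e5
      have h4 : mu m a (mu m (mu m b c) d) = mu m a (mu m b (mu m c d))
          + (om w c d • mu m a b - om w b c • mu m a d) := by
        rw [← e4]; abel
      rw [h4] at e5
      have h5 := sub_eq_zero.2 e5
      rw [← h5]
      abel
    rw [sub_smul, sub_smul]
    rw [← e6]
    abel
  -- for basis vectors in the first slot
  have k1 : ∀ i, om w (mu m (Pi.single i 1) y) z = om w (Pi.single i 1) (mu m y z) := by
    intro i
    obtain ⟨q, hq⟩ := exists_ne i
    have := congrFun (teich (Pi.single i 1) y z (Pi.single q 1)) q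
    simp [hq] at this
    exact (sub_eq_zero.1 this).symm
  have k2 : ((om w).flip z) ∘ₗ ((mu m).flip y) = (om w).flip (mu m y z) := by
    apply lin_ext
    intro i
    simpa using k1 i
  simpa using LinearMap.congr_fun k2 x

lemma hatMul_assoc (m : Fin N → Fin N → Fin N → ℂ) (w : Fin N → Fin N → ℂ)
    (h : ∀ x y z, mu m (mu m x y) z - mu m x (mu m y z) = om w y z • x - om w x y • z)
    (h' : ∀ x y z, om w (mu m x y) z = om w x (mu m y z)) (p q r : ℂ × (Fin N → ℂ)) :
    hatMul m w (hatMul m w p q) r = hatMul m w p (hatMul m w q r) := by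
  obtain ⟨s, x⟩ := p
  obtain ⟨t, y⟩ := q
  obtain ⟨r, z⟩ := r
  simp only [hatMul_eq, map_add, map_smul, LinearMap.add_apply, LinearMap.smul_apply, h' x y z]
  refine Prod.ext ?_ ?_
  · simp only [smul_eq_mul]
    ring
  · have := h x y z
    have h1 : mu m (mu m x y) z = mu m x (mu m y z) + (om w y z • x - om w x y • z) := by
      rw [← this]; abel
    simp only [h1]
    ext k
    simp only [Pi.add_apply, Pi.smul_apply, Pi.sub_apply, smul_eq_mul]
    ring

/-- existence of the unital associative algebra -/
lemma exists_hat (m : Fin N → Fin N → Fin N → ℂ) (hJ : ∀ f g h : Alg N, S (assoc m) f g h = 0) :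
    ∃ w : Fin N → Fin N → ℂ, ∀ p q r,
      hatMul m w (hatMul m w p q) r = hatMul m w p (hatMul m w q r) := by
  rcases subsingleton_or_nontrivial (Fin N) with hN | hN
  · refine ⟨fun _ _ => 0, ?_⟩
    have h0 : ∀ x y, om (fun _ _ => 0 : Fin N → Fin N → ℂ) x y = 0 := by
      intro x y; simp [om]
    apply hatMul_assoc
    · apply assoc_all
      intro i j l p
      have h1 : j = i := Subsingleton.elim _ _
      have h2 : l = i := Subsingleton.elim _ _
      have h3 : p = i := Subsingleton.elim _ _
      subst h1 h2 h3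
      rw [assoc, lp, rp]
      simp only [ite_self, sub_self, sub_eq_zero]
      refine Finset.sum_congr rfl fun k _ => ?_
      have h4 : k = p := Subsingleton.elim _ _
      subst h4
      rfl
    · intro x y z
      rw [h0, h0]
  · obtain ⟨w, hw⟩ := assoc_shape (assoc m) hJ
    refine ⟨w, ?_⟩
    have h := assoc_all m w hw
    exact hatMul_assoc m w h (om_inv m w h)

/-- extraction of the skew part -/
lemma skew_part (s : Fin N → Fin N → Fin N → ℂ) (h : ∀ f g : Alg N, V s f g + V s g f = 0) :
    ∃ c : Fin N → ℂ, ∀ i j k,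
      s i j k = (if i = k then c j else 0) - (if j = k then c i else 0) := by
  -- linear tests
  have t1 : ∀ a b k, s a b k + s b a k = 0 := by
    intro a b k
    have := congrArg (coef [k]) (h (word [a]) (word [b]))
    rw [map_add, coef_V_word, coef_V_word] at this
    simpa [cutsG] using this
  -- quadratic tests
  have t2 : ∀ a b k, a ≠ b → k ≠ a → k ≠ b → s a b k = 0 := by
    intro a b k hab hka hkb
    have := congrArg (coef [a, b, k]) (h (word [a, a]) (word [b, b]))
    rw [map_add, coef_V_word, coef_V_word] at this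
    simpa [cutsG, hab, hab.symm, hka.symm, hkb.symm] using this
  have t3 : ∀ a a' b, a ≠ a' → a ≠ b → a' ≠ b → s a b a = s a' b a' := by
    intro a a' b h1 h2 h3
    have := congrArg (coef [a, a', b]) (h (word [a, a']) (word [b, b]))
    rw [map_add, coef_V_word, coef_V_word] at this
    simp [cutsG, h1, h1.symm, h2, h2.symm, h3, h3.symm] at this
    have h4 := t1 a' b a'
    linear_combination this / 2 - h4
  have t0 : ∀ a k, s a a k = 0 := by
    intro a k
    have := t1 a a k
    linear_combination this / 2
  classical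
  refine ⟨fun j => if h : ∃ a, a ≠ j then s h.choose j h.choose else 0, ?_⟩
  have key : ∀ i j, i ≠ j →
      (if h : ∃ a, a ≠ j then s h.choose j h.choose else 0) = s i j i := by
    intro i j hij
    have hex : ∃ a, a ≠ j := ⟨i, hij⟩
    rw [dif_pos hex]
    have hc := hex.choose_spec
    rcases eq_or_ne hex.choose i with h1 | h1
    · rw [h1]
    · exact t3 _ _ _ h1 hc hij
  intro i j k
  rcases eq_or_ne i j with rfl | hij
  · rw [t0]; ring
  · beta_reduce
    rw [key i j hij, key j i hij.symm]
    rcases eq_or_ne i k with rfl | hik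
    · rw [if_pos rfl, if_neg hij.symm]; ring
    · rw [if_neg hik]
      rcases eq_or_ne j k with rfl | hjk
      · rw [if_pos rfl]
        linear_combination t1 i j j
      · rw [if_neg hjk, t2 i j k hij hik.symm hjk.symm]; ring


lemma bracket_reduce (m : Fin N → Fin N → Fin N → ℂ) (u v : Fin N → ℂ)
    (b b' : Fin N → Fin N → Fin N → ℂ)
    (hb : ∀ i j k, b i j k = m i j k + (if j = k then u i else 0) + (if i = k then v j else 0))
    (hb' : ∀ i j k, b' i j k = - m j i k - (if j = k then u i else 0) - (if i = k then v j else 0)) :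
    bracket b b' = bracket m (opp m) := by
  funext f g
  obtain ⟨f, rfl⟩ := tr_surj f
  obtain ⟨g, rfl⟩ := tr_surj g
  rw [bracket_tr, bracket_tr, tr_B_reduce m u v b b' hb hb']

/-- **Classification of linear nonabelian Poisson brackets.**  The bracket with constants
`b_ij^k`, `b'_ij^k` is a nonabelian Poisson bracket if and only if there are a unital associative
algebra with basis `1, e_1, …, e_N`, `e_i e_j = w_ij 1 + Σ_k m_ij^k e_k`, and `v ∈ ℂ^N` with
`b_ij^k = m_ij^k + v_j δ_ik` and `b'_ij^k = - m_ji^k - v_j δ_ik`. -/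
theorem classification (N : ℕ) (b b' : Fin N → Fin N → Fin N → ℂ) :
    IsNonabelianPoisson b b' ↔
      ∃ (m : Fin N → Fin N → Fin N → ℂ) (w : Fin N → Fin N → ℂ) (v : Fin N → ℂ),
        IsUnitalAssociative m w ∧
        (∀ i j k, b i j k = m i j k + (if i = k then v j else 0)) ∧
        (∀ i j k, b' i j k = - m j i k - (if i = k then v j else 0)) := by
  constructor
  · rintro ⟨hs, hj⟩
    have h1 : ∀ f g : Alg N, V (fun i j k => b i j k + b' j i k) f g
        + V (fun i j k => b i j k + b' j i k) g f = 0 := by
      intro f g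
      have := hs (tr f) (tr g)
      rw [bracket_tr, bracket_tr, tr_B, tr_B] at this
      rw [V_add, V_add, ← this]
      abel
    obtain ⟨c, hc⟩ := skew_part _ h1
    have hb : ∀ i j k, b i j k = (b i j k - (if i = k then c j else 0))
        + (if j = k then (fun _ => (0 : ℂ)) i else 0) + (if i = k then c j else 0) := by
      intro i j k
      simp
    have hb' : ∀ i j k, b' i j k = - (b j i k - (if j = k then c i else 0))
        - (if j = k then (fun _ => (0 : ℂ)) i else 0) - (if i = k then c j else 0) := by
      intro i j k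
      have := hc j i k
      simp only [ite_self]
      linear_combination this
    have hred := bracket_reduce (fun i j k => b i j k - (if i = k then c j else 0)) (fun _ => 0) c
      b b' hb hb'
    have hJ : ∀ f g h : Alg N, S (assoc (fun i j k => b i j k - (if i = k then c j else 0))) f g h
        = 0 := by
      intro f g h
      have := hj (tr f) (tr g) (tr h)
      rw [hred] at this
      simp only [bracket_tr] at this
      rw [jacobi_formula, neg_eq_zero] at this
      exact this
    obtain ⟨w, hw⟩ := exists_hat _ hJ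
    refine ⟨_, w, c, hw, ?_, ?_⟩
    · intro i j k; simp
    · intro i j k
      have := hb' i j k
      simp only [ite_self] at this
      linear_combination this
  · rintro ⟨m, w, v, hm, hb, hb'⟩
    have hb1 : ∀ i j k, b i j k = m i j k + (if j = k then (fun _ => (0 : ℂ)) i else 0)
        + (if i = k then v j else 0) := by
      intro i j k
      rw [hb]
      simp
    have hb2 : ∀ i j k, b' i j k = - m j i k - (if j = k then (fun _ => (0 : ℂ)) i else 0)
        - (if i = k then v j else 0) := by
      intro i j k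
      rw [hb']
      simp
    rw [IsNonabelianPoisson, bracket_reduce m (fun _ => 0) v b b' hb1 hb2]
    constructor
    · intro f g
      obtain ⟨f, rfl⟩ := tr_surj f
      obtain ⟨g, rfl⟩ := tr_surj g
      rw [bracket_tr, bracket_tr, tr_B_skew, neg_add_cancel]
    · intro f g h
      obtain ⟨f, rfl⟩ := tr_surj f
      obtain ⟨g, rfl⟩ := tr_surj g
      obtain ⟨h, rfl⟩ := tr_surj h
      simp only [bracket_tr]
      rw [jacobi_formula, S_zero (assoc m) w (assoc_of_hatMul m w hm), neg_zero]

end Pool.Agent.NPB
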